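import Pool.Agent.BEH.Stmts
import Pool.Agent.Helper91_BE01.LVL
import Pool.Agent.Helper47_BE01.Stl
import Pool.Agent.Helper69_BE01.Chn
import Pool.Agent.Helper51_BE01.Sob

/-!
# Squad BEH, row STU: uniform bound of the eigenfunctions of all subdomains
-/

namespace Pool.Agent.BEH.H91

open Set Filter Topology MeasureTheory
open scoped InnerProductSpace ENNReal
open Pool.Agent.BE01 Pool.Agent.BE01.H91

noncomputable section

/-- LVL with an explicit constant. -/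
lemma lvlU (chn : ChnStmt) {c1 : ℝ} (hc1 : 0 < c1)
    (hst : ∀ x, deriv Real.smoothTransition x ≤ c1) {d : ℕ} {Ω : Set (En d)}
    {ι : VV Ω →L[ℝ] Lp ℝ 6 (mu Ω)} (hΩ : Dom Ω) (hι : Emb Ω ι) (f : Lp ℝ 2 (mu Ω)) (G : VV Ω)
    (hf : ∀ ψ, Tst Ω ψ → ∫ x, ⟪(G : Lp (En d) 2 (mu Ω)) x, gradient ψ x⟫_ℝ ∂(mu Ω) =
      ∫ x, f x * ψ x ∂(mu Ω)) (k h : ℝ) (hk : 0 ≤ k) (hkh : k < h) :
    (mu Ω).real {x | h < ι G x} ≤
      ((‖ι‖ ^ 2 * c1 + 1) * ‖f‖ / (h - k)) ^ 3 * (mu Ω).real {x | k < ι G x} ^ (3 / 2 : ℝ) := by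
  have := mu_fin hΩ
  have hkh' : 0 < h - k := by linarith
  have hder : ∀ s, 0 ≤ deriv (Ph k h) s ∧ deriv (Ph k h) s ≤ c1 / (h - k) := by
    intro s
    rw [Ph_deriv, div_eq_mul_inv]
    have h1 : 0 ≤ deriv Real.smoothTransition ((s - k) * (h - k)⁻¹) :=
      Real.smoothTransition.monotone.deriv_nonneg
    exact ⟨mul_nonneg h1 (inv_nonneg.2 hkh'.le),
      mul_le_mul_of_nonneg_right (hst _) (inv_nonneg.2 hkh'.le)⟩
  obtain ⟨G', hG1, hG2⟩ := chn d Ω ι (Ph k h) (c1 / (h - k)) hΩ hι (Ph_smooth k h)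
    (by
      unfold Ph
      refine Real.smoothTransition.zero_of_nonpos ?_
      have := inv_nonneg.2 hkh'.le
      nlinarith)
    (fun s => by rw [abs_of_nonneg (hder s).1]; exact (hder s).2) G
  have hk1 := test_all hι hf G'
  -- the norm of `G'`
  have e1 : ‖G'‖ ^ 2 ≤ c1 / (h - k) * ⟪(G : Lp (En d) 2 (mu Ω)), (G' : Lp (En d) 2 (mu Ω))⟫_ℝ := by
    have a1 : ‖G'‖ ^ 2 = ⟪(G' : Lp (En d) 2 (mu Ω)), (G' : Lp (En d) 2 (mu Ω))⟫_ℝ := by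
      rw [real_inner_self_eq_norm_sq]
      rfl
    rw [a1, L2.inner_def, L2.inner_def, ← integral_const_mul]
    refine integral_mono_ae (L2.integrable_inner (𝕜 := ℝ) _ _)
      ((L2.integrable_inner (𝕜 := ℝ) _ _).const_mul _) ?_
    filter_upwards [hG2] with x hx
    show ⟪(G' : Lp (En d) 2 (mu Ω)) x, (G' : Lp (En d) 2 (mu Ω)) x⟫_ℝ ≤
      c1 / (h - k) * ⟪(G : Lp (En d) 2 (mu Ω)) x, (G' : Lp (En d) 2 (mu Ω)) x⟫_ℝ
    rw [hx, real_inner_smul_left, real_inner_smul_right]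
    have b1 : 0 ≤ ⟪(G : Lp (En d) 2 (mu Ω)) x, (G : Lp (En d) 2 (mu Ω)) x⟫_ℝ :=
      real_inner_self_nonneg
    obtain ⟨b2, b3⟩ := hder (ι G x)
    have b4 : 0 ≤ deriv (Ph k h) (ι G x) *
        ⟪(G : Lp (En d) 2 (mu Ω)) x, (G : Lp (En d) 2 (mu Ω)) x⟫_ℝ := mul_nonneg b2 b1
    exact mul_le_mul_of_nonneg_right b3 b4
  -- the function `Φ(u)`
  have hm : ∀ t : ℝ, MeasurableSet {x | t < ι G x} := fun t =>
    measurableSet_lt measurable_const (Lp.stronglyMeasurable (ι G)).measurable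
  have e2 : ‖j62 (mu Ω) (ι G')‖ ^ 2 ≤ (mu Ω).real {x | k < ι G x} := by
    have a1 : ‖j62 (mu Ω) (ι G')‖ ^ 2 = ⟪j62 (mu Ω) (ι G'), j62 (mu Ω) (ι G')⟫_ℝ := by
      rw [real_inner_self_eq_norm_sq]
    have a2 : (mu Ω).real {x | k < ι G x} =
        ∫ x, {x | k < ι G x}.indicator (fun _ => (1 : ℝ)) x ∂(mu Ω) := by
      rw [integral_indicator (hm k), setIntegral_const, smul_eq_mul, mul_one]
    rw [a1, a2, L2.inner_def]
    refine integral_mono_ae (L2.integrable_inner (𝕜 := ℝ) _ _)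
      ((integrable_const (1 : ℝ)).indicator (hm k)) ?_
    filter_upwards [hG1, j62_ae (mu Ω) (ι G')] with x hx hx'
    show ⟪j62 (mu Ω) (ι G') x, j62 (mu Ω) (ι G') x⟫_ℝ ≤
      {x | k < ι G x}.indicator (fun _ => (1 : ℝ)) x
    rw [hx', hx, inner_mul]
    by_cases hx1 : k < ι G x
    · have h1 : x ∈ {x | k < ι G x} := hx1
      rw [indicator_of_mem h1]
      have h2 := Real.smoothTransition.le_one ((ι G x - k) * (h - k)⁻¹)
      have h3 := Real.smoothTransition.nonneg ((ι G x - k) * (h - k)⁻¹)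
      show Real.smoothTransition ((ι G x - k) * (h - k)⁻¹) *
        Real.smoothTransition ((ι G x - k) * (h - k)⁻¹) ≤ 1
      nlinarith
    · have h1 : x ∉ {x | k < ι G x} := hx1
      rw [indicator_of_notMem h1]
      have h2 : Ph k h (ι G x) = 0 := by
        unfold Ph
        refine Real.smoothTransition.zero_of_nonpos ?_
        have := inv_nonneg.2 hkh'.le
        push Not at hx1
        nlinarith
      rw [h2, mul_zero]
  have e3 : (mu Ω).real {x | h < ι G x} ≤ ‖ι G'‖ ^ 6 := by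
    have a1 := Lp.mul_meas_ge_le_pow_enorm' (ι G') (by norm_num) (by norm_num) 1
    have a2 : (mu Ω) {x | h < ι G x} ≤ (mu Ω) {x | (1 : ℝ≥0∞) ≤ ‖ι G' x‖₊} := by
      refine measure_mono_ae ?_
      filter_upwards [hG1] with x hx hx1
      show (1 : ℝ≥0∞) ≤ ‖ι G' x‖₊
      have hx2 : h < ι G x := hx1
      have h2 : Ph k h (ι G x) = 1 := by
        unfold Ph
        refine Real.smoothTransition.one_of_one_le ?_
        rw [← div_eq_mul_inv, le_div_iff₀ hkh']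
        linarith
      rw [hx, h2]
      simp
    have a3 : (mu Ω) {x | h < ι G x} ≤ ENNReal.ofReal ‖ι G'‖ ^ (6 : ℝ≥0∞).toReal := by
      refine a2.trans ?_
      rw [ENNReal.one_rpow, one_mul] at a1
      exact a1
    have a4 : ENNReal.ofReal ‖ι G'‖ ^ (6 : ℝ≥0∞).toReal = ENNReal.ofReal (‖ι G'‖ ^ 6) := by
      rw [ENNReal.ofReal_pow (norm_nonneg _)]
      have : (6 : ℝ≥0∞).toReal = ((6 : ℕ) : ℝ) := by norm_num
      rw [this, ENNReal.rpow_natCast]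
    rw [a4] at a3
    exact ENNReal.toReal_le_of_le_ofReal (by positivity) a3
  -- conclusion
  obtain ⟨a, ha⟩ : ∃ a : ℝ, a = (mu Ω).real {x | k < ι G x} := ⟨_, rfl⟩
  have ha0 : 0 ≤ a := by rw [ha]; exact measureReal_nonneg
  rw [← ha] at e2 ⊢
  have e4 : ‖j62 (mu Ω) (ι G')‖ ≤ a ^ (1 / 2 : ℝ) := by
    rw [← Real.sqrt_eq_rpow]
    exact Real.le_sqrt_of_sq_le e2
  have e5 : ‖G'‖ ^ 2 ≤ c1 / (h - k) * (‖f‖ * a ^ (1 / 2 : ℝ)) := by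
    refine e1.trans (mul_le_mul_of_nonneg_left ?_ (by positivity))
    rw [hk1]
    exact (real_inner_le_norm _ _).trans (mul_le_mul_of_nonneg_left e4 (norm_nonneg _))
  have e6 : ‖ι G'‖ ^ 2 ≤ (‖ι‖ ^ 2 * c1 + 1) * ‖f‖ / (h - k) * a ^ (1 / 2 : ℝ) := by
    have b1 : ‖ι G'‖ ≤ ‖ι‖ * ‖G'‖ := ι.le_opNorm _
    have b2 : ‖ι G'‖ ^ 2 ≤ (‖ι‖ * ‖G'‖) ^ 2 := pow_le_pow_left₀ (norm_nonneg _) b1 2
    rw [mul_pow] at b2
    have b3 : ‖ι‖ ^ 2 * ‖G'‖ ^ 2 ≤ ‖ι‖ ^ 2 * (c1 / (h - k) * (‖f‖ * a ^ (1 / 2 : ℝ))) :=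
      mul_le_mul_of_nonneg_left e5 (by positivity)
    have b4 : (‖ι‖ ^ 2 * c1 + 1) * ‖f‖ / (h - k) * a ^ (1 / 2 : ℝ) =
        ‖ι‖ ^ 2 * (c1 / (h - k) * (‖f‖ * a ^ (1 / 2 : ℝ))) + ‖f‖ / (h - k) * a ^ (1 / 2 : ℝ) := by
      ring
    have b5 : 0 ≤ ‖f‖ / (h - k) * a ^ (1 / 2 : ℝ) := by positivity
    rw [b4]
    linarith
  calc (mu Ω).real {x | h < ι G x} ≤ ‖ι G'‖ ^ 6 := e3
    _ = (‖ι G'‖ ^ 2) ^ 3 := by ring
    _ ≤ ((‖ι‖ ^ 2 * c1 + 1) * ‖f‖ / (h - k) * a ^ (1 / 2 : ℝ)) ^ 3 :=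
      pow_le_pow_left₀ (by positivity) e6 3
    _ = ((‖ι‖ ^ 2 * c1 + 1) * ‖f‖ / (h - k)) ^ 3 * a ^ (3 / 2 : ℝ) := by
      rw [mul_pow, ← Real.rpow_natCast (a ^ (1 / 2 : ℝ)), ← Real.rpow_mul ha0]
      norm_num

/-- The solution of the Dirichlet problem is bounded, with an explicit constant (one side). -/
lemma halfU (chn : ChnStmt) (hS : StlStmt) {c1 : ℝ} (hc1 : 0 < c1)
    (hst : ∀ x, deriv Real.smoothTransition x ≤ c1) {d : ℕ} {Ω : Set (En d)}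
    {ι : VV Ω →L[ℝ] Lp ℝ 6 (mu Ω)} (hΩ : Dom Ω) (hι : Emb Ω ι) {C0 a0 : ℝ}
    (hC0 : ‖ι‖ ^ 2 * c1 + 1 ≤ C0) (ha : (mu Ω).real univ ≤ a0) (f : Lp ℝ 2 (mu Ω)) (G : VV Ω)
    (hG : ∀ ψ, Tst Ω ψ → ∫ x, ⟪(G : Lp (En d) 2 (mu Ω)) x, gradient ψ x⟫_ℝ ∂(mu Ω) =
      ∫ x, f x * ψ x ∂(mu Ω)) :
    ∀ᵐ x ∂(mu Ω), ι G x ≤ 8 * C0 * a0 ^ (1 / 6 : ℝ) * ‖f‖ := by
  haveI := mu_fin hΩ
  have ha0' : 0 ≤ a0 := le_trans measureReal_nonneg ha
  have hCp : 0 < C0 := lt_of_lt_of_le (by positivity) hC0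
  obtain ⟨b, hb⟩ : ∃ b : ℝ, b = a0 ^ (1 / 6 : ℝ) := ⟨_, rfl⟩
  have hb0 : 0 ≤ b := by rw [hb]; exact Real.rpow_nonneg ha0' _
  have hlev := lvlU chn hc1 hst hΩ hι f G hG
  have hnn : 0 ≤ ‖f‖ := norm_nonneg f
  rw [← hb]
  have key : ∀ n : ℕ, ∀ᵐ x ∂(mu Ω),
      ι G x ≤ 8 * (C0 * (‖f‖ + 1 / ((n : ℝ) + 1))) * b + 1 / ((n : ℝ) + 1) := by
    intro n
    have he : (0 : ℝ) < 1 / ((n : ℝ) + 1) := by positivity
    obtain ⟨e, hedef⟩ : ∃ e : ℝ, e = 1 / ((n : ℝ) + 1) := ⟨_, rfl⟩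
    rw [← hedef] at he ⊢
    have h1 := hS (fun k => (mu Ω).real {x | k < ι G x}) (C0 * (‖f‖ + e)) a0 (by positivity) ha0'
      (fun k => measureReal_nonneg)
      (fun k h _ hkh => measureReal_mono (fun x (hx : h < ι G x) => lt_trans hkh hx)
        (measure_ne_top _ _))
      ((measureReal_mono (subset_univ _) (measure_ne_top _ _)).trans ha)
      (fun k h hk hkh => by
        refine (hlev k h hk hkh).trans ?_
        refine mul_le_mul_of_nonneg_right ?_ (Real.rpow_nonneg measureReal_nonneg _)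
        have h2 : 0 < h - k := by linarith
        refine pow_le_pow_left₀ (by positivity) ?_ 3
        refine div_le_div_of_nonneg_right ?_ h2.le
        exact mul_le_mul hC0 (by linarith) hnn hCp.le)
      (8 * (C0 * (‖f‖ + e)) * b + e) (by rw [← hb]; linarith)
    have h3 : (mu Ω) {x | 8 * (C0 * (‖f‖ + e)) * b + e < ι G x} = 0 :=
      (measureReal_eq_zero_iff (measure_ne_top _ _)).mp h1
    rw [ae_iff]
    have h4 : {x | ¬ ι G x ≤ 8 * (C0 * (‖f‖ + e)) * b + e} =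
        {x | 8 * (C0 * (‖f‖ + e)) * b + e < ι G x} := by
      ext x
      simp only [mem_setOf_eq, not_le]
    rw [h4]
    exact h3
  have hall := ae_all_iff.mpr key
  filter_upwards [hall] with x hx
  have hl0 : Tendsto (fun n : ℕ => 1 / ((n : ℝ) + 1)) atTop (𝓝 0) :=
    tendsto_one_div_add_atTop_nhds_zero_nat
  have hlim : Tendsto (fun n : ℕ => 8 * (C0 * (‖f‖ + 1 / ((n : ℝ) + 1))) * b +
      1 / ((n : ℝ) + 1)) atTop (𝓝 (8 * (C0 * (‖f‖ + 0)) * b + 0)) := by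
    refine Tendsto.add ?_ hl0
    refine Tendsto.mul_const b ?_
    refine Tendsto.const_mul 8 ?_
    refine Tendsto.const_mul C0 ?_
    exact Tendsto.const_add ‖f‖ hl0
  have h5 : ι G x ≤ 8 * (C0 * (‖f‖ + 0)) * b + 0 := ge_of_tendsto' hlim hx
  nlinarith

/-- The solution of the Dirichlet problem is bounded, with an explicit constant. -/
lemma staU (chn : ChnStmt) (hS : StlStmt) {c1 : ℝ} (hc1 : 0 < c1)
    (hst : ∀ x, deriv Real.smoothTransition x ≤ c1) {d : ℕ} {Ω : Set (En d)}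
    {ι : VV Ω →L[ℝ] Lp ℝ 6 (mu Ω)} (hΩ : Dom Ω) (hι : Emb Ω ι) {C0 a0 : ℝ}
    (hC0 : ‖ι‖ ^ 2 * c1 + 1 ≤ C0) (ha : (mu Ω).real univ ≤ a0) (f : Lp ℝ 2 (mu Ω)) (G : VV Ω)
    (hG : ∀ ψ, Tst Ω ψ → ∫ x, ⟪(G : Lp (En d) 2 (mu Ω)) x, gradient ψ x⟫_ℝ ∂(mu Ω) =
      ∫ x, f x * ψ x ∂(mu Ω)) :
    ∀ᵐ x ∂(mu Ω), |ι G x| ≤ 8 * C0 * a0 ^ (1 / 6 : ℝ) * ‖f‖ := by
  haveI := mu_fin hΩ
  have h1 := halfU chn hS hc1 hst hΩ hι hC0 ha f G hG
  have h2 := halfU chn hS hc1 hst hΩ hι hC0 ha (-f) (-G) (by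
    intro ψ hψ
    have e1 : ∫ x, ⟪((-G : VV Ω) : Lp (En d) 2 (mu Ω)) x, gradient ψ x⟫_ℝ ∂(mu Ω) =
        ∫ x, -⟪(G : Lp (En d) 2 (mu Ω)) x, gradient ψ x⟫_ℝ ∂(mu Ω) := by
      refine integral_congr_ae ?_
      have e2 : (((-G : VV Ω) : Lp (En d) 2 (mu Ω)) : En d → En d) =ᵐ[mu Ω]
          -((G : Lp (En d) 2 (mu Ω)) : En d → En d) := by
        rw [Submodule.coe_neg]
        exact Lp.coeFn_neg _
      filter_upwards [e2] with x hx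
      rw [hx, Pi.neg_apply, inner_neg_left]
    have e3 : ∫ x, (-f : Lp ℝ 2 (mu Ω)) x * ψ x ∂(mu Ω) = ∫ x, -(f x * ψ x) ∂(mu Ω) := by
      refine integral_congr_ae ?_
      filter_upwards [Lp.coeFn_neg f] with x hx
      rw [hx, Pi.neg_apply, neg_mul]
    rw [e1, e3, integral_neg, integral_neg, hG ψ hψ])
  have h3 : (ι (-G) : En d → ℝ) =ᵐ[mu Ω] -(ι G : En d → ℝ) := by
    rw [map_neg]
    exact Lp.coeFn_neg _
  filter_upwards [h1, h2, h3] with x hx1 hx2 hx3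
  rw [hx3, Pi.neg_apply, norm_neg] at hx2
  exact abs_le.mpr ⟨by linarith, hx1⟩

/-- The Sobolev inequality of `Ω` holds for the subdomains, with the same constant. -/
lemma sobU {d : ℕ} {Ω Ω' : Set (En d)} {C : ℝ}
    (hS : ∀ ψ, Tst Ω ψ → eLpNorm ψ 6 (mu Ω) ≤ ENNReal.ofReal C * eLpNorm (gradient ψ) 2 (mu Ω))
    (hs : Ω' ⊆ Ω) (ψ : En d → ℝ) (hψ : Tst Ω' ψ) :
    eLpNorm ψ 6 (mu Ω') ≤ ENNReal.ofReal C * eLpNorm (gradient ψ) 2 (mu Ω') := by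
  have h1 : Tst Ω ψ := ⟨hψ.1, hψ.2.1, hψ.2.2.trans hs⟩
  have h2 := hS ψ h1
  have s1 : Function.support ψ ⊆ Ω' := (subset_tsupport ψ).trans hψ.2.2
  have s2 : Function.support (gradient ψ) ⊆ Ω' := by
    intro x hx
    refine hψ.2.2 (support_fderiv_subset (𝕜 := ℝ) ?_)
    rw [Function.mem_support] at hx ⊢
    intro h0
    exact hx (by unfold gradient; rw [h0, map_zero])
  unfold mu at h2 ⊢
  rw [eLpNorm_restrict_eq_of_support_subset s1, eLpNorm_restrict_eq_of_support_subset s2]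
  rw [eLpNorm_restrict_eq_of_support_subset (s1.trans hs),
    eLpNorm_restrict_eq_of_support_subset (s2.trans hs)] at h2
  exact h2

/-- The norm of the embedding is at most the Sobolev constant. -/
lemma normU {d : ℕ} {Ω : Set (En d)} {C : ℝ} (hC : 0 < C)
    (hS : ∀ ψ, Tst Ω ψ → eLpNorm ψ 6 (mu Ω) ≤ ENNReal.ofReal C * eLpNorm (gradient ψ) 2 (mu Ω))
    {ι : VV Ω →L[ℝ] Lp ℝ 6 (mu Ω)} (hι : Emb Ω ι) : ‖ι‖ ≤ C := by
  refine ContinuousLinearMap.opNorm_le_bound ι hC.le ?_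
  intro G
  have hc1 : Continuous fun G : VV Ω => ‖ι G‖ := ι.continuous.norm
  have hc2 : Continuous fun G : VV Ω => C * ‖G‖ := continuous_const.mul continuous_norm
  refine (ge_dense Ω).induction_on (p := fun G => ‖ι G‖ ≤ C * ‖G‖) G (isClosed_le hc1 hc2) ?_
  intro ψ
  have h0 : ι (ge Ω ψ) = tl Ω 6 ψ :=
    Lp.ext ((hι ψ.1 ψ.2 (ge Ω ψ) (gr_ae Ω ψ)).trans (tl_ae Ω 6 ψ).symm)
  have h1 : ‖ge Ω ψ‖ = ‖gr Ω ψ‖ := rfl
  rw [h0, h1]
  show ‖(tst_memLp ψ.2 6).toLp ψ.1‖ ≤ C * ‖(tst_grad_memLp ψ.2 2).toLp (gradient ψ.1)‖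
  rw [Lp.norm_toLp, Lp.norm_toLp]
  have h2 := hS ψ.1 ψ.2
  have h3 : C = (ENNReal.ofReal C).toReal := by rw [ENNReal.toReal_ofReal hC.le]
  rw [h3, ← ENNReal.toReal_mul]
  refine ENNReal.toReal_mono ?_ h2
  exact ENNReal.mul_ne_top ENNReal.ofReal_ne_top (tst_grad_memLp ψ.2 2).eLpNorm_ne_top

/-- STU. -/
theorem stu : StuStmt := by
  intro d Ω hd hΩ
  obtain ⟨c1, hc1, hst⟩ := st_bd
  obtain ⟨C, hC, hS⟩ := Pool.Agent.BE01.H51.sob d Ω hd hΩ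
  haveI := mu_fin hΩ
  have hA : 0 ≤ (mu Ω).real univ := measureReal_nonneg
  refine ⟨8 * (C ^ 2 * c1 + 1) * (mu Ω).real univ ^ (1 / 6 : ℝ) + 1, by positivity, ?_⟩
  intro Ω' hΩ' hsub l u hu
  obtain ⟨G, hG, hE⟩ := hu
  haveI := mu_fin hΩ'
  obtain ⟨ι, hι, hH⟩ := Pool.Agent.BE01.H91.emb Pool.Agent.BE01.H51.sob d Ω' hd hΩ'
  obtain ⟨hGV, huG⟩ := (hH u G).1 hG
  have hS' := sobU hS hsub
  have hn : ‖ι‖ ≤ C := normU hC hS' hι
  have hK : ‖ι‖ ^ 2 * c1 + 1 ≤ C ^ 2 * c1 + 1 := by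
    have := pow_le_pow_left₀ (norm_nonneg ι) hn 2
    nlinarith
  have hm : (mu Ω').real univ ≤ (mu Ω).real univ := by
    unfold mu
    have h1 : volume.restrict Ω' univ ≤ volume.restrict Ω univ := by
      rw [Measure.restrict_apply_univ, Measure.restrict_apply_univ]
      exact measure_mono hsub
    refine ENNReal.toReal_mono ?_ h1
    rw [Measure.restrict_apply_univ]
    exact hΩ.2.1.measure_lt_top.ne
  have h1 := staU Pool.Agent.BE01.H69.chn Pool.Agent.BE01.H47.stl hc1 hst hΩ' hι hK hm (l • u)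
    ⟨G, hGV⟩ (by
      intro ψ hψ
      show ∫ x, ⟪G x, gradient ψ x⟫_ℝ ∂(mu Ω') = _
      rw [hE ψ hψ, ← integral_const_mul]
      refine integral_congr_ae ?_
      filter_upwards [Lp.coeFn_smul l u] with x hx
      rw [hx, Pi.smul_apply, smul_eq_mul, mul_assoc])
  filter_upwards [h1, huG] with x hx hx2
  rw [hx2]
  refine hx.trans ?_
  rw [norm_smul, Real.norm_eq_abs]
  have : 0 ≤ |l| * ‖u‖ := by positivity
  nlinarith

end

end Pool.Agent.BEH.H91
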