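import Pool.Agent.BEH.StmtsD
import Pool.Agent.Helper70_BE01.All

/-!
# Squad BEH, row UN3: the uniform final state theorem in dimensions 2 and 3
-/

namespace Pool.Agent.BEH.H91

open Set Filter Topology MeasureTheory
open scoped InnerProductSpace ENNReal
open Pool.Agent.BE01 Pool.Agent.BEL

noncomputable section

theorem int_sq {d : ℕ} {Ω : Set (En d)} (φ : Lp ℝ 2 (mu Ω)) :
    ∫ x, φ x ^ 2 ∂(mu Ω) = ‖φ‖ ^ 2 := by
  rw [← real_inner_self_eq_norm_sq, L2.inner_def]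
  refine integral_congr_ae (Eventually.of_forall fun x => ?_)
  show φ x ^ 2 = ⟪φ x, φ x⟫_ℝ
  rw [real_inner_self_eq_norm_sq, Real.norm_eq_abs, sq_abs]

theorem uni_of (d : ℕ) (hd : d = 2 ∨ d = 3) : Uni d := by
  intro Ω p a B β _ hp ha hβ
  have hcp : 0 < cp p := Pool.Agent.Helper70BE01Scl.cp_pos p
  have hp0 : (0 : ℝ) < p := by exact_mod_cast (by omega : 0 < p)
  have hpos : 0 < p * cp p * β := mul_pos (mul_pos hp0 hcp) hβ
  obtain ⟨K, hK⟩ := exists_nat_gt ((2 * p + 1) * B ^ (2 * p) / (p * cp p * β))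
  rw [div_lt_iff₀ hpos] at hK
  refine ⟨1 + 2 * p * K, ?_⟩
  intro Ω' hΩ' _ l φ _ _ hφ hφB hφβ hE hs hn
  have hφ0 : φ ≠ 0 := by
    intro h
    rw [h, norm_zero] at hφ
    exact zero_ne_one hφ
  refine Pool.Agent.Helper70BE01All.fnl2 d Ω' p K a l B φ hd hΩ' hp ha hφ0 hE hs hφB ?_ hn
  rw [int_sq, hφ, one_pow, mul_one]
  refine lt_of_lt_of_le hK ?_
  refine mul_le_mul_of_nonneg_left ?_ (Nat.cast_nonneg K)
  exact mul_le_mul_of_nonneg_left hφβ (mul_pos hp0 hcp).le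

/-- UN3 -/
theorem un3 : Un3Stmt := ⟨uni_of 2 (Or.inl rfl), uni_of 3 (Or.inr rfl)⟩

end

end Pool.Agent.BEH.H91
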